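import Pool.Agent.X109.RC.Main

/-!
# MP_a90892_an, Q1 (full positive answer)

For every locally convex space `X` over `ℝ` or `ℂ` (no completeness or separation is needed),
every continuous linear operator `f : X → X`, every `ℓ` and every Furstenberg family `𝒜`, the
hyperextension of `f` to the nonempty compact sets (Vietoris topology) is topologically
`(ℓ, 𝒜)`-recurrent if and only if its restriction to the nonempty compact convex sets is.
-/

open Set TopologicalSpace X109RC

namespace Pool.Agent.Results.MP_a90892_an.ConvexHyperRecurrence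

variable {𝕜 : Type*} [RCLike 𝕜] {X : Type*} [AddCommGroup X] [Module 𝕜 X] [Module ℝ X]
  [IsScalarTower ℝ 𝕜 X] [TopologicalSpace X]

/-- The restriction `f̃` of the hyperextension `K ↦ f(K)` to the nonempty compact convex sets. -/
def convexExt (f : X →L[𝕜] X) : ConvexCompacts X → ConvexCompacts X :=
  fun K => ⟨hyper f f.continuous K.1, (hyperConvex (f.restrictScalars ℝ) K).2⟩

theorem result [IsTopologicalAddGroup X] [ContinuousSMul 𝕜 X] [LocallyConvexSpace ℝ X]
    (f : X →L[𝕜] X) (l : ℕ) (A : Set (Set ℕ)) (hA : IsFurstenberg A) :
    IsRecurrent (hyper f f.continuous) l A ↔ IsRecurrent (convexExt f) l A := by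
  have : ContinuousSMul ℝ X := IsScalarTower.continuousSMul 𝕜
  exact ⟨convex_of_hyper (f.restrictScalars ℝ) l A hA, hyper_of_convex (f.restrictScalars ℝ) l A hA⟩

end Pool.Agent.Results.MP_a90892_an.ConvexHyperRecurrence
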